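import Mathlib

/-!
# A maximum principle (for MP_af9036_an, project ed:/dh:)

`MaxP_main`: the comparison of `log (R / |F|)` with a superharmonic majorant, on the set where the logarithms are moderate.
-/

set_option autoImplicit false

open Complex Metric Set Filter Topology

noncomputable section

namespace MaxP

/-- `G` has the first derivative `d` and the second derivative `a` at `w` in the direction `u`. -/
def D2 (G : ℂ → ℝ) (w u : ℂ) (d a : ℝ) : Prop :=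
  ∃ g : ℝ → ℝ, (∀ᶠ t : ℝ in 𝓝 0, HasDerivAt (fun t : ℝ => G (w + t * u)) (g t) t) ∧ g 0 = d ∧ HasDerivAt g a 0

theorem D2.add {G K : ℂ → ℝ} {w u : ℂ} {d a e b : ℝ} (hG : D2 G w u d a) (hK : D2 K w u e b) :
    D2 (fun z => G z + K z) w u (d + e) (a + b) := by
  obtain ⟨g, h1, h0, h2⟩ := hG
  obtain ⟨k, h3, h0', h4⟩ := hK
  refine ⟨fun t => g t + k t, ?_, by simp [h0, h0'], h2.add h4⟩
  filter_upwards [h1, h3] with t ht1 ht3
  exact ht1.add ht3

theorem D2.const_mul {G : ℂ → ℝ} {w u : ℂ} {d a : ℝ} (c : ℝ) (hG : D2 G w u d a) :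
    D2 (fun z => c * G z) w u (c * d) (c * a) := by
  obtain ⟨g, h1, h0, h2⟩ := hG
  refine ⟨fun t => c * g t, ?_, by simp [h0], h2.const_mul c⟩
  filter_upwards [h1] with t ht1
  exact ht1.const_mul c

theorem D2.const (c : ℝ) (w u : ℂ) : D2 (fun _ => c) w u 0 0 := by
  refine ⟨fun _ => 0, ?_, rfl, hasDerivAt_const _ _⟩
  filter_upwards with t
  exact hasDerivAt_const _ _

theorem D2.sum {ι : Type*} (I : Finset ι) {G : ι → ℂ → ℝ} {w u : ℂ} {d a : ι → ℝ}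
    (h : ∀ i ∈ I, D2 (G i) w u (d i) (a i)) :
    D2 (fun z => ∑ i ∈ I, G i z) w u (∑ i ∈ I, d i) (∑ i ∈ I, a i) := by
  classical
  induction I using Finset.induction_on with
  | empty => simpa using D2.const 0 w u
  | insert i I hi ih =>
    simp only [Finset.sum_insert hi]
    exact (h i (Finset.mem_insert_self _ _)).add (ih fun j hj => h j (Finset.mem_insert_of_mem hj))

theorem line_cont (w u : ℂ) : ContinuousAt (fun t : ℝ => w + (t : ℂ) * u) 0 := by fun_prop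

theorem D2.congr {G K : ℂ → ℝ} {w u : ℂ} {d a : ℝ} (hG : D2 G w u d a) (h : ∀ᶠ z in 𝓝 w, K z = G z) :
    D2 K w u d a := by
  obtain ⟨g, h1, h0, h2⟩ := hG
  refine ⟨g, ?_, h0, h2⟩
  have h3 : ∀ᶠ t : ℝ in 𝓝 0, K (w + t * u) = G (w + t * u) := by
    have := (line_cont w u).tendsto.eventually (p := fun z => K z = G z) (by simpa using h)
    exact this
  filter_upwards [h1, h3.eventually_nhds] with t ht1 ht3
  exact ht1.congr_of_eventuallyEq ht3

/-- the second derivative test. -/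
theorem D2.le_of_max {G : ℂ → ℝ} {w u : ℂ} {d a : ℝ} (hG : D2 G w u d a) (hmax : IsLocalMax G w) : a ≤ 0 := by
  obtain ⟨g, h1, -, h2⟩ := hG
  set γ : ℝ → ℝ := fun t => G (w + t * u) with hγ
  have hm : IsLocalMax γ 0 := by
    have := (line_cont w u).tendsto.eventually (p := fun z => G z ≤ G w)
      (by have h5 : ∀ᶠ z in 𝓝 w, G z ≤ G w := hmax
          simpa using h5)
    simpa [IsLocalMax, IsMaxFilter, hγ] using this
  by_contra hlt
  push Not at hlt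
  have hg0 : deriv γ =ᶠ[𝓝 0] g := by
    filter_upwards [h1] with t ht
    exact ht.deriv
  have hd0 : deriv γ 0 = 0 := hm.deriv_eq_zero
  have hdd : deriv (deriv γ) 0 = a := by
    rw [hg0.deriv_eq]; exact h2.deriv
  have hcont : ContinuousAt γ 0 := h1.self_of_nhds.continuousAt
  have hmin : IsLocalMin γ 0 := isLocalMin_of_deriv_deriv_pos (by rw [hdd]; exact hlt) hd0 hcont
  have hconst : γ =ᶠ[𝓝 0] fun _ => γ 0 := by
    filter_upwards [hm, hmin] with t ht1 ht2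
    exact le_antisymm ht1 ht2
  have h3 : deriv γ =ᶠ[𝓝 0] fun _ => (0 : ℝ) := by
    have := hconst.deriv
    refine this.trans ?_
    filter_upwards with t
    simp
  have h4 : deriv (deriv γ) 0 = 0 := by
    rw [h3.deriv_eq]; simp
  linarith [hdd.symm.trans h4]

theorem D2.log {K : ℂ → ℝ} {w u : ℂ} {d a : ℝ} (hK : D2 K w u d a) (hpos : 0 < K w) :
    D2 (fun z => Real.log (K z)) w u (d / K w) (a / K w - d ^ 2 / K w ^ 2) := by
  obtain ⟨g, h1, h0, h2⟩ := hK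
  have hc : ContinuousAt (fun t : ℝ => K (w + t * u)) 0 := h1.self_of_nhds.continuousAt
  have hp : ∀ᶠ t : ℝ in 𝓝 0, 0 < K (w + t * u) := hc.eventually (p := fun s => 0 < s) (by
    have : (fun t : ℝ => K (w + t * u)) 0 = K w := by simp
    rw [this]; exact lt_mem_nhds hpos)
  refine ⟨fun t => g t / K (w + t * u), ?_, by simp [h0], ?_⟩
  · filter_upwards [h1, hp] with t ht1 ht2
    exact ht1.log ht2.ne'
  · have h3 := h1.self_of_nhds
    have h4 : K (w + ((0 : ℝ) : ℂ) * u) ≠ 0 := by simpa using hpos.ne'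
    have h5 := h2.div h3 h4
    simp only [ofReal_zero, zero_mul, add_zero] at h5
    refine h5.congr_deriv ?_
    rw [h0]
    have h6 : K w ≠ 0 := hpos.ne'
    field_simp

/-- a curve in the plane. -/
theorem hasDerivAt_line (w u : ℂ) (t : ℝ) : HasDerivAt (fun t : ℝ => w + (t : ℂ) * u) u t := by
  have h := ((Complex.ofRealCLM.hasDerivAt (x := t)).mul_const u).const_add w
  simpa using h

theorem hasDerivAt_comp_line {F : ℂ → ℂ} {w u : ℂ} {t : ℝ} {F' : ℂ} (h : HasDerivAt F F' (w + t * u)) :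
    HasDerivAt (fun t : ℝ => F (w + (t : ℂ) * u)) (F' * u) t :=
  HasDerivAt.comp_of_eq (h₂ := F) t (y := w + t * u) h (hasDerivAt_line w u t) rfl |>.congr_deriv (by ring)

/-- the square of the norm of a holomorphic function. -/
theorem D2_normSq {F : ℂ → ℂ} {w u : ℂ} (hF : AnalyticAt ℂ F w) :
    D2 (fun z => ‖F z‖ ^ 2) w u (2 * inner ℝ (F w) (deriv F w * u))
      (2 * (inner ℝ (F w) (deriv (deriv F) w * u * u) + ‖deriv F w * u‖ ^ 2)) := by
  have hev : ∀ᶠ z in 𝓝 w, HasDerivAt F (deriv F z) z := by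
    filter_upwards [hF.eventually_analyticAt] with z hz
    exact hz.differentiableAt.hasDerivAt
  have hev2 : ∀ᶠ t : ℝ in 𝓝 0, HasDerivAt F (deriv F (w + t * u)) (w + t * u) :=
    (line_cont w u).tendsto.eventually (p := fun z => HasDerivAt F (deriv F z) z) (by simpa using hev)
  refine ⟨fun t => 2 * inner ℝ (F (w + t * u)) (deriv F (w + t * u) * u), ?_, by simp, ?_⟩
  · filter_upwards [hev2] with t ht
    exact (hasDerivAt_comp_line ht).norm_sq
  · have h1 : HasDerivAt (fun t : ℝ => F (w + (t : ℂ) * u)) (deriv F w * u) 0 := by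
      refine hasDerivAt_comp_line (t := 0) ?_
      simpa using hF.differentiableAt.hasDerivAt
    have h2 : HasDerivAt (fun t : ℝ => deriv F (w + (t : ℂ) * u) * u) (deriv (deriv F) w * u * u) 0 := by
      refine HasDerivAt.mul_const (hasDerivAt_comp_line (F := deriv F) (t := 0) ?_) u
      simpa using hF.deriv.differentiableAt.hasDerivAt
    have h3 := (h1.inner ℝ h2).const_mul (2 : ℝ)
    refine h3.congr_deriv ?_
    simp only [ofReal_zero, zero_mul, add_zero, real_inner_self_eq_norm_sq]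

theorem D2_log_norm {b : ℂ → ℂ} {w u : ℂ} (hb : AnalyticAt ℂ b w) (h0 : b w ≠ 0) :
    D2 (fun z => Real.log ‖b z‖) w u (inner ℝ (b w) (deriv b w * u) / ‖b w‖ ^ 2)
      ((inner ℝ (b w) (deriv (deriv b) w * u * u) + ‖deriv b w * u‖ ^ 2) / ‖b w‖ ^ 2 -
        2 * (inner ℝ (b w) (deriv b w * u)) ^ 2 / ‖b w‖ ^ 4) := by
  have hn : 0 < ‖b w‖ := norm_pos_iff.2 h0
  have h1 := ((D2_normSq (u := u) hb).log (by positivity)).const_mul (1 / 2 : ℝ)
  have h2 : D2 (fun z => Real.log ‖b z‖) w u _ _ := h1.congr (by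
    filter_upwards with z
    rw [Real.log_pow]; push_cast; ring)
  convert h2 using 1
  · ring
  · field_simp

/-- the sum of the second derivatives in the directions `1` and `I`. -/
def Lap (G : ℂ → ℝ) (w : ℂ) (a : ℝ) : Prop := ∃ d₁ a₁ d₂ a₂ : ℝ, D2 G w 1 d₁ a₁ ∧ D2 G w I d₂ a₂ ∧ a₁ + a₂ = a

theorem Lap.add {G K : ℂ → ℝ} {w : ℂ} {a b : ℝ} (hG : Lap G w a) (hK : Lap K w b) :
    Lap (fun z => G z + K z) w (a + b) := by
  obtain ⟨d₁, a₁, d₂, a₂, h1, h2, h3⟩ := hG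
  obtain ⟨e₁, b₁, e₂, b₂, h4, h5, h6⟩ := hK
  exact ⟨_, _, _, _, h1.add h4, h2.add h5, by linarith⟩

theorem Lap.const_mul {G : ℂ → ℝ} {w : ℂ} {a : ℝ} (c : ℝ) (hG : Lap G w a) :
    Lap (fun z => c * G z) w (c * a) := by
  obtain ⟨d₁, a₁, d₂, a₂, h1, h2, h3⟩ := hG
  exact ⟨_, _, _, _, h1.const_mul c, h2.const_mul c, by rw [← h3]; ring⟩

theorem Lap.const (c : ℝ) (w : ℂ) : Lap (fun _ => c) w 0 :=
  ⟨_, _, _, _, D2.const c w 1, D2.const c w I, by simp⟩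

theorem Lap.sum {ι : Type*} (I : Finset ι) {G : ι → ℂ → ℝ} {w : ℂ} {a : ι → ℝ}
    (h : ∀ i ∈ I, Lap (G i) w (a i)) : Lap (fun z => ∑ i ∈ I, G i z) w (∑ i ∈ I, a i) := by
  classical
  induction I using Finset.induction_on with
  | empty => simpa using Lap.const 0 w
  | insert i I hi ih =>
    simp only [Finset.sum_insert hi]
    exact (h i (Finset.mem_insert_self _ _)).add (ih fun j hj => h j (Finset.mem_insert_of_mem hj))

theorem Lap.congr {G K : ℂ → ℝ} {w : ℂ} {a : ℝ} (hG : Lap G w a) (h : ∀ᶠ z in 𝓝 w, K z = G z) :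
    Lap K w a := by
  obtain ⟨d₁, a₁, d₂, a₂, h1, h2, h3⟩ := hG
  exact ⟨_, _, _, _, h1.congr h, h2.congr h, h3⟩

theorem Lap.le_of_max {G : ℂ → ℝ} {w : ℂ} {a : ℝ} (hG : Lap G w a) (hmax : IsLocalMax G w) : a ≤ 0 := by
  obtain ⟨d₁, a₁, d₂, a₂, h1, h2, h3⟩ := hG
  linarith [h1.le_of_max hmax, h2.le_of_max hmax]

theorem Lap_normSq {F : ℂ → ℂ} {w : ℂ} (hF : AnalyticAt ℂ F w) :
    Lap (fun z => ‖F z‖ ^ 2) w (4 * ‖deriv F w‖ ^ 2) := by
  refine ⟨_, _, _, _, D2_normSq hF, D2_normSq hF, ?_⟩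
  simp only [mul_one, norm_mul, norm_I]
  have : deriv (deriv F) w * I * I = - deriv (deriv F) w := by rw [mul_assoc, I_mul_I]; ring
  rw [this, inner_neg_right]
  ring

theorem Lap_log_norm {b : ℂ → ℂ} {w : ℂ} (hb : AnalyticAt ℂ b w) (h0 : b w ≠ 0) :
    Lap (fun z => Real.log ‖b z‖) w 0 := by
  refine ⟨_, _, _, _, D2_log_norm hb h0, D2_log_norm hb h0, ?_⟩
  have hn : 0 < ‖b w‖ := norm_pos_iff.2 h0
  simp only [mul_one, norm_mul, norm_I]
  have h1 : deriv (deriv b) w * I * I = - deriv (deriv b) w := by rw [mul_assoc, I_mul_I]; ring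
  have h2 : inner ℝ (b w) (deriv b w) ^ 2 + inner ℝ (b w) (deriv b w * I) ^ 2 = ‖b w‖ ^ 2 * ‖deriv b w‖ ^ 2 := by
    rw [← Complex.normSq_eq_norm_sq, ← Complex.normSq_eq_norm_sq, Complex.normSq_apply, Complex.normSq_apply,
      Complex.inner, Complex.inner]
    simp only [Complex.mul_re, Complex.mul_im, Complex.conj_re, Complex.conj_im, Complex.I_re, Complex.I_im]
    ring
  rw [h1, inner_neg_right]
  have h3 : ‖b w‖ ^ 4 = ‖b w‖ ^ 2 * ‖b w‖ ^ 2 := by ring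
  field_simp
  rw [h3] at *
  nlinarith [h2]

theorem Lap_log_one_sub {w : ℂ} (hw : ‖w‖ < 1) :
    Lap (fun z => Real.log (1 - ‖z‖ ^ 2)) w (-(4 / (1 - ‖w‖ ^ 2) ^ 2)) := by
  have hp : 0 < 1 - ‖w‖ ^ 2 := by nlinarith [norm_nonneg w]
  have hid : AnalyticAt ℂ (fun z : ℂ => z) w := analyticAt_id
  have key : ∀ u : ℂ, D2 (fun z : ℂ => 1 - ‖z‖ ^ 2) w u (-(2 * inner ℝ w u)) (-(2 * ‖u‖ ^ 2)) := by
    intro u
    have h1 := (D2.const 1 w u).add ((D2_normSq (u := u) hid).const_mul (-1))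
    have hd : deriv (fun z : ℂ => z) = fun _ => 1 := by ext z; exact deriv_id z
    rw [hd] at h1
    have h2 := h1.congr (K := fun z => 1 - ‖z‖ ^ 2) (by filter_upwards with z; ring)
    convert h2 using 1
    · simp
    · simp
  refine ⟨_, _, _, _, (key 1).log hp, (key I).log hp, ?_⟩
  have h2 : inner ℝ w 1 ^ 2 + inner ℝ w I ^ 2 = ‖w‖ ^ 2 := by
    rw [← Complex.normSq_eq_norm_sq, Complex.normSq_apply, Complex.inner, Complex.inner]
    simp only [Complex.mul_re, Complex.conj_re, Complex.conj_im, Complex.I_re, Complex.I_im, Complex.one_re,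
      Complex.one_im]
    ring
  simp only [norm_one, norm_I]
  have h4 : (-(2 * inner ℝ w 1)) ^ 2 = 4 * inner ℝ w 1 ^ 2 := by ring
  have h5 : (-(2 * inner ℝ w I)) ^ 2 = 4 * inner ℝ w I ^ 2 := by ring
  rw [h4, h5]
  field_simp
  nlinarith [h2]

/-- the set of the comparison. -/
def EE {ι : Type*} (r ε R : ℝ) (F : ℂ → ℂ) (J : Finset ι) (b : ι → ℂ → ℂ) (β : ι → ℝ) : Set ℂ :=
  {w | ‖w‖ ≤ r ∧ ε ≤ ‖F w‖ ∧ ‖F w‖ ≤ R ∧ Real.exp (-1) ≤ ∏ i ∈ J, ‖b i w‖ ^ β i}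

theorem prod_eq {ι : Type*} (J : Finset ι) (b : ι → ℂ) (β : ι → ℝ) (h : ∀ i ∈ J, b i ≠ 0) :
    ∏ i ∈ J, ‖b i‖ ^ β i = Real.exp (-∑ i ∈ J, β i * (-Real.log ‖b i‖)) := by
  rw [← Finset.sum_neg_distrib, Real.exp_sum]
  refine Finset.prod_congr rfl fun i hi => ?_
  rw [Real.rpow_def_of_pos (norm_pos_iff.2 (h i hi))]
  congr 1; ring

theorem ne_of_prod {ι : Type*} (J : Finset ι) (b : ι → ℂ) (β : ι → ℝ) (hβ : ∀ i ∈ J, 0 < β i)
    (h : Real.exp (-1) ≤ ∏ i ∈ J, ‖b i‖ ^ β i) : ∀ i ∈ J, b i ≠ 0 := by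
  intro i hi h0
  have : ∏ i ∈ J, ‖b i‖ ^ β i = 0 := Finset.prod_eq_zero hi (by rw [h0, norm_zero, Real.zero_rpow (hβ i hi).ne'])
  rw [this] at h
  exact absurd h (not_le.2 (Real.exp_pos _))

/-- MaxP_main: the maximum principle. -/
theorem main {ι : Type*} (r ε R A : ℝ) (F : ℂ → ℂ) (J : Finset ι) (b : ι → ℂ → ℂ) (α β : ι → ℝ)
    (hr : 0 < r) (hr1 : r < 1) (hε : 0 < ε) (hεR : ε < R) (hA : 0 ≤ A)
    (hF : DifferentiableOn ℂ F (ball 0 1)) (hF1 : MapsTo F (ball 0 1) (ball 0 1))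
    (hb : ∀ i ∈ J, DifferentiableOn ℂ (b i) (ball 0 1)) (hb1 : ∀ i ∈ J, MapsTo (b i) (ball 0 1) (ball 0 1))
    (hα : ∀ i ∈ J, 0 ≤ α i) (hβ : ∀ i ∈ J, 0 < β i)
    (H1 : ∀ w : ℂ, ‖w‖ < r → ε < ‖F w‖ → ‖F w‖ < R → (∀ i ∈ J, b i w ≠ 0) →
      ∑ i ∈ J, β i * (-Real.log ‖b i w‖) < 1 → 1 < A * (‖deriv F w‖ * (1 - ‖w‖ ^ 2)) ^ 2)
    (H2 : ∀ w : ℂ, ‖w‖ ≤ r → ‖F w‖ = ε → (∀ i ∈ J, b i w ≠ 0) →
      ∑ i ∈ J, β i * (-Real.log ‖b i w‖) ≤ 1 → 1 ≤ ∑ i ∈ J, α i * (-Real.log ‖b i w‖))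
    (h0 : ε ≤ ‖F 0‖) (h0' : ‖F 0‖ ≤ R) (hb0 : ∀ i ∈ J, b i 0 ≠ 0)
    (hu0 : ∑ i ∈ J, β i * (-Real.log ‖b i 0‖) ≤ 1) :
    Real.log (R / ‖F 0‖) ≤ Real.log (R / ε) * (∑ i ∈ J, α i * (-Real.log ‖b i 0‖) +
      ∑ i ∈ J, β i * (-Real.log ‖b i 0‖) + A * (1 - ‖F 0‖ ^ 2) / (-Real.log (1 - r ^ 2))) := by
  have hR : 0 < R := hε.trans hεR
  set L : ℝ := Real.log (R / ε) with hL
  have hLpos : 0 < L := Real.log_pos (by rw [lt_div_iff₀ hε]; linarith)
  set l : ℝ := -Real.log (1 - r ^ 2) with hl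
  have hr2 : 0 < 1 - r ^ 2 := by nlinarith
  have hlpos : 0 < l := by
    have : Real.log (1 - r ^ 2) < 0 := Real.log_neg hr2 (by nlinarith)
    rw [hl]; linarith
  set E := EE r ε R F J b β with hE
  have hcb : closedBall (0 : ℂ) r ⊆ ball 0 1 := closedBall_subset_ball hr1
  have hmemb : ∀ w : ℂ, ‖w‖ ≤ r → w ∈ ball (0 : ℂ) 1 := fun w hw => hcb (by simpa using hw)
  -- E is compact
  have hprodc : ContinuousOn (fun w => ∏ i ∈ J, ‖b i w‖ ^ β i) (closedBall (0 : ℂ) r) := by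
    refine continuousOn_finsetProd J fun i hi => ?_
    exact (((hb i hi).continuousOn.mono hcb).norm).rpow_const fun x _ => Or.inr (hβ i hi).le
  have hFc : ContinuousOn (fun w => ‖F w‖) (closedBall (0 : ℂ) r) := (hF.continuousOn.mono hcb).norm
  have hEeq : E = closedBall (0 : ℂ) r ∩ (fun w => ‖F w‖) ⁻¹' (Set.Icc ε R) ∩
      (closedBall (0 : ℂ) r ∩ (fun w => ∏ i ∈ J, ‖b i w‖ ^ β i) ⁻¹' (Set.Ici (Real.exp (-1)))) := by
    ext w
    simp only [hE, EE, mem_ofPred_eq, mem_inter_iff, mem_preimage, mem_closedBall, dist_zero_right, mem_Icc, mem_Ici]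
    tauto
  have hEc : IsCompact E := by
    have h1 : IsClosed (closedBall (0 : ℂ) r ∩ (fun w => ‖F w‖) ⁻¹' (Set.Icc ε R)) :=
      hFc.preimage_isClosed_of_isClosed isClosed_closedBall isClosed_Icc
    have h2 : IsClosed (closedBall (0 : ℂ) r ∩ (fun w => ∏ i ∈ J, ‖b i w‖ ^ β i) ⁻¹' (Set.Ici (Real.exp (-1)))) :=
      hprodc.preimage_isClosed_of_isClosed isClosed_closedBall isClosed_Ici
    rw [hEeq]
    exact (isCompact_closedBall (0 : ℂ) r).of_isClosed_subset (h1.inter h2) (fun w hw => hw.1.1)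
  have hEne : ∀ w ∈ E, ∀ i ∈ J, b i w ≠ 0 := fun w hw => ne_of_prod J (fun i => b i w) β hβ hw.2.2.2
  have hEu : ∀ w ∈ E, ∑ i ∈ J, β i * (-Real.log ‖b i w‖) ≤ 1 := by
    intro w hw
    have h1 := hw.2.2.2
    rw [prod_eq J (fun i => b i w) β (hEne w hw), Real.exp_le_exp] at h1
    linarith
  have h0E : (0 : ℂ) ∈ E := by
    refine ⟨by simpa using hr.le, h0, h0', ?_⟩
    rw [prod_eq J (fun i => b i 0) β hb0, Real.exp_le_exp]
    linarith
  -- the function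
  set G : ℂ → ℝ := fun w => (Real.log R + (-1) * Real.log ‖F w‖) + (-L) * (∑ i ∈ J, (α i + β i) * ((-1) * Real.log ‖b i w‖) +
    l⁻¹ * (A * (1 + (-1) * ‖F w‖ ^ 2) + (-1) * Real.log (1 - ‖w‖ ^ 2))) with hG
  have hFne : ∀ w ∈ E, F w ≠ 0 := fun w hw => norm_pos_iff.1 (lt_of_lt_of_le hε hw.2.1)
  have hEb : E ⊆ ball 0 1 := fun w hw => hmemb w hw.1
  have hGc : ContinuousOn G E := by
    have h1 : ContinuousOn (fun w => Real.log ‖F w‖) E :=
      ((hF.continuousOn.mono hEb).norm).log fun w hw => (norm_pos_iff.2 (hFne w hw)).ne'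
    have h2 : ∀ i ∈ J, ContinuousOn (fun w => Real.log ‖b i w‖) E := fun i hi =>
      (((hb i hi).continuousOn.mono hEb).norm).log fun w hw => (norm_pos_iff.2 (hEne w hw i hi)).ne'
    have h3 : ContinuousOn (fun w : ℂ => Real.log (1 - ‖w‖ ^ 2)) E := by
      refine ContinuousOn.log (by fun_prop) fun w hw => ?_
      have : ‖w‖ ≤ r := hw.1
      have h5 := norm_nonneg w
      nlinarith
    have h4 : ContinuousOn (fun w => ‖F w‖) E := (hF.continuousOn.mono hEb).norm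
    refine (continuousOn_const.add (continuousOn_const.mul h1)).add (continuousOn_const.mul (ContinuousOn.add ?_ ?_))
    · exact continuousOn_finsetSum J fun i hi => continuousOn_const.mul (continuousOn_const.mul (h2 i hi))
    · exact continuousOn_const.mul ((continuousOn_const.mul (continuousOn_const.add (continuousOn_const.mul (h4.pow 2)))).add
        (continuousOn_const.mul h3))
  obtain ⟨w, hwE, hwmax⟩ := hEc.exists_isMaxOn ⟨0, h0E⟩ hGc
  have hwr : ‖w‖ ≤ r := hwE.1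
  have hw1 : w ∈ ball (0 : ℂ) 1 := hmemb w hwr
  have hwn : ‖w‖ < 1 := lt_of_le_of_lt hwr hr1
  have hFw := hFne w hwE
  have hFwp : 0 < ‖F w‖ := norm_pos_iff.2 hFw
  have hbw := hEne w hwE
  have huw := hEu w hwE
  have hneglog : ∀ i ∈ J, 0 ≤ -Real.log ‖b i w‖ := by
    intro i hi
    have : ‖b i w‖ < 1 := by simpa using hb1 i hi hw1
    have := Real.log_nonpos (norm_nonneg _) this.le
    linarith
  have hα0 : 0 ≤ ∑ i ∈ J, α i * (-Real.log ‖b i w‖) := Finset.sum_nonneg fun i hi => mul_nonneg (hα i hi) (hneglog i hi)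
  have hβ0 : 0 ≤ ∑ i ∈ J, β i * (-Real.log ‖b i w‖) := Finset.sum_nonneg fun i hi => mul_nonneg (hβ i hi).le (hneglog i hi)
  have hFn1 : ‖F w‖ < 1 := by simpa using hF1 hw1
  have hw2 : 0 < 1 - ‖w‖ ^ 2 := by nlinarith [norm_nonneg w]
  have hS1 : 0 ≤ A * (1 - ‖F w‖ ^ 2) := mul_nonneg hA (by nlinarith [norm_nonneg (F w)])
  have hS2 : 0 ≤ -Real.log (1 - ‖w‖ ^ 2) := by
    have := Real.log_nonpos hw2.le (by nlinarith [norm_nonneg w])
    linarith
  have hGeq : ∀ z : ℂ, G z = (Real.log R - Real.log ‖F z‖) - L * (∑ i ∈ J, α i * (-Real.log ‖b i z‖) +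
      ∑ i ∈ J, β i * (-Real.log ‖b i z‖) + (A * (1 - ‖F z‖ ^ 2) + (-Real.log (1 - ‖z‖ ^ 2))) / l) := by
    intro z
    have : ∑ i ∈ J, (α i + β i) * ((-1) * Real.log ‖b i z‖) = ∑ i ∈ J, α i * (-Real.log ‖b i z‖) +
        ∑ i ∈ J, β i * (-Real.log ‖b i z‖) := by
      rw [← Finset.sum_add_distrib]
      refine Finset.sum_congr rfl fun i _ => by ring
    simp only [hG]
    rw [this, div_eq_inv_mul]
    ring
  have hhle : Real.log R - Real.log ‖F w‖ ≤ L := by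
    have : Real.log ε ≤ Real.log ‖F w‖ := Real.log_le_log hε hwE.2.1
    rw [hL, Real.log_div hR.ne' hε.ne']
    linarith
  have hGw : G w ≤ 0 := by
    rw [hGeq]
    by_cases c1 : ‖w‖ = r
    · have h1 : -Real.log (1 - ‖w‖ ^ 2) = l := by rw [c1]
      have h2 : 1 ≤ (A * (1 - ‖F w‖ ^ 2) + (-Real.log (1 - ‖w‖ ^ 2))) / l := by
        rw [le_div_iff₀ hlpos, h1]; linarith
      nlinarith
    by_cases c2 : ‖F w‖ = ε
    · have h1 := H2 w hwr c2 hbw huw
      have h2 : 0 ≤ (A * (1 - ‖F w‖ ^ 2) + (-Real.log (1 - ‖w‖ ^ 2))) / l := by positivity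
      nlinarith
    by_cases c3 : ‖F w‖ = R
    · rw [c3]
      have h2 : 0 ≤ (A * (1 - ‖F w‖ ^ 2) + (-Real.log (1 - ‖w‖ ^ 2))) / l := by positivity
      rw [c3] at h2
      have : 0 ≤ L * (∑ i ∈ J, α i * (-Real.log ‖b i w‖) + ∑ i ∈ J, β i * (-Real.log ‖b i w‖) +
        (A * (1 - R ^ 2) + (-Real.log (1 - ‖w‖ ^ 2))) / l) := by positivity
      linarith
    by_cases c4 : ∑ i ∈ J, β i * (-Real.log ‖b i w‖) = 1
    · have h2 : 0 ≤ (A * (1 - ‖F w‖ ^ 2) + (-Real.log (1 - ‖w‖ ^ 2))) / l := by positivity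
      nlinarith
    exfalso
    have d1 : ‖w‖ < r := lt_of_le_of_ne hwr c1
    have d2 : ε < ‖F w‖ := lt_of_le_of_ne hwE.2.1 (Ne.symm c2)
    have d3 : ‖F w‖ < R := lt_of_le_of_ne hwE.2.2.1 c3
    have d4 : ∑ i ∈ J, β i * (-Real.log ‖b i w‖) < 1 := lt_of_le_of_ne huw c4
    have hH := H1 w d1 d2 d3 hbw d4
    have hanF : AnalyticAt ℂ F w := hF.analyticAt (isOpen_ball.mem_nhds hw1)
    have hanb : ∀ i ∈ J, AnalyticAt ℂ (b i) w := fun i hi => (hb i hi).analyticAt (isOpen_ball.mem_nhds hw1)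
    -- E is a neighbourhood of w
    have hEn : E ∈ 𝓝 w := by
      have e1 : ∀ᶠ z : ℂ in 𝓝 w, ‖z‖ < r := continuous_norm.continuousAt.eventually (p := fun s => s < r) (gt_mem_nhds d1)
      have e2 : ∀ᶠ z : ℂ in 𝓝 w, ε < ‖F z‖ := hanF.continuousAt.norm.eventually (p := fun s => ε < s) (lt_mem_nhds d2)
      have e3 : ∀ᶠ z : ℂ in 𝓝 w, ‖F z‖ < R := hanF.continuousAt.norm.eventually (p := fun s => s < R) (gt_mem_nhds d3)
      have e4 : ∀ᶠ z : ℂ in 𝓝 w, Real.exp (-1) < ∏ i ∈ J, ‖b i z‖ ^ β i := by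
        have hc : ContinuousAt (fun z => ∏ i ∈ J, ‖b i z‖ ^ β i) w :=
          (hprodc w (by simpa using hwr)).continuousAt (mem_of_superset (isOpen_ball.mem_nhds (by simpa using d1 : w ∈ ball (0:ℂ) r)) ball_subset_closedBall)
        refine hc.eventually (p := fun s => Real.exp (-1) < s) (lt_mem_nhds ?_)
        show Real.exp (-1) < ∏ i ∈ J, ‖b i w‖ ^ β i
        rw [prod_eq J (fun i => b i w) β hbw, Real.exp_lt_exp]
        linarith
      filter_upwards [e1, e2, e3, e4] with z h1 h2 h3 h4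
      exact ⟨h1.le, h2.le, h3.le, h4.le⟩
    have hloc : IsLocalMax G w := hwmax.isLocalMax hEn
    have hLap : Lap G w ((0 + (-1) * 0) + (-L) * (∑ i ∈ J, (α i + β i) * ((-1) * 0) +
        l⁻¹ * (A * (0 + (-1) * (4 * ‖deriv F w‖ ^ 2)) + (-1) * (-(4 / (1 - ‖w‖ ^ 2) ^ 2))))) := by
      refine ((Lap.const _ w).add ((Lap_log_norm hanF hFw).const_mul (-1))).add (Lap.const_mul (-L) (Lap.add ?_ ?_))
      · exact Lap.sum J fun i hi => ((Lap_log_norm (hanb i hi) (hbw i hi)).const_mul (-1)).const_mul (α i + β i)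
      · exact (((Lap.const 1 w).add ((Lap_normSq hanF).const_mul (-1))).const_mul A).add
          ((Lap_log_one_sub hwn).const_mul (-1)) |>.const_mul l⁻¹
    have hle := hLap.le_of_max hloc
    have hsum : ∑ i ∈ J, (α i + β i) * ((-1) * (0 : ℝ)) = 0 := by simp
    rw [hsum] at hle
    have h5 : A * (‖deriv F w‖ ^ 2) > 1 / (1 - ‖w‖ ^ 2) ^ 2 := by
      rw [gt_iff_lt, div_lt_iff₀ (by positivity)]
      nlinarith [hH]
    have h6 : 4 / (1 - ‖w‖ ^ 2) ^ 2 = 4 * (1 / (1 - ‖w‖ ^ 2) ^ 2) := by ring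
    rw [h6] at hle
    have h7 : 0 < L * (l⁻¹ * (4 * (A * ‖deriv F w‖ ^ 2 - 1 / (1 - ‖w‖ ^ 2) ^ 2))) := by
      have : 0 < A * ‖deriv F w‖ ^ 2 - 1 / (1 - ‖w‖ ^ 2) ^ 2 := by linarith
      positivity
    linarith
  have hG0 : G 0 ≤ 0 := (hwmax h0E).trans hGw
  rw [hGeq] at hG0
  simp only [norm_zero, ne_eq, OfNat.ofNat_ne_zero, not_false_eq_true, zero_pow, sub_zero, Real.log_one, neg_zero, add_zero] at hG0
  have h8 : 0 < ‖F 0‖ := lt_of_lt_of_le hε h0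
  rw [Real.log_div hR.ne' h8.ne']
  linarith

end MaxP
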